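import Pool.Agent.Work.MP_0f16e1_nt.CovA
import Pool.Agent.Work.MP_0f16e1_nt.FieldQ

/-! # MP_0f16e1_nt : a large simple factor of the Hecke algebra in every weight

In every weight `k` with `S_k ≠ 0` the Hecke algebra `𝕋_k` of level one has a quotient field (a simple
factor, the coefficient field of a Galois orbit of eigenforms) of degree at least
`min (dim S_k) 20`; the constant `20` can be replaced by `50` for `k ≥ 200000` and by `111` for
`k ≥ 1000000`.

Proof: for a prime `l ≥ 5` a cusp form modulo `l` of weight `w` which is killed by `p(T₂)`, `p`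
irreducible of degree `r` modulo `l`, gives one in every weight `w + i (l-1) + j (l+1)`
(multiplication by the Hasse invariant `E_{l-1} = 1`, and the derivative `θ`, which multiplies the
eigenvalues by `2`); finitely many certificates `(l, w, r)`, verified in the kernel, cover all weights. -/

namespace Pool.Agent.Results.MP_0f16e1_nt.LargestFactor

open MP0f16e1

theorem result (k : ℕ) (hS : S k ≠ ⊥) :
    ∃ (F : Type) (_ : Field F) (_ : Algebra ℚ F) (φ : HeckeAlg k →ₐ[ℚ] F),
      Function.Surjective φ ∧
      min (Module.finrank ℚ (Sk k)) (if k < 200000 then 20 else if k < 1000000 then 50 else 111) ≤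
        Module.finrank ℚ F := by
  obtain ⟨⟨I, hI, h1⟩, h2, h3⟩ := large_factor k hS
  by_cases h4 : k < 200000
  · rw [if_pos h4]
    exact exists_field hI h1
  · rw [if_neg h4]
    by_cases h5 : k < 1000000
    · rw [if_pos h5]
      obtain ⟨J, hJ, h6⟩ := h2 (by omega)
      exact exists_field hJ ((min_le_right _ _).trans h6)
    · rw [if_neg h5]
      obtain ⟨J, hJ, h6⟩ := h3 (by omega)
      exact exists_field hJ ((min_le_right _ _).trans h6)

end Pool.Agent.Results.MP_0f16e1_nt.LargestFactor
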