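import Pool.Agent.Work.MP_0f16e1_nt.WinAll

/-! # MP_0f16e1_nt : the number of simple factors of the Hecke algebra in every weight

In every weight `k` the number of simple factors of the level one Hecke algebra `𝕋_k` (Galois orbits of
eigenforms) is at most `0.28 dim S_k + 1295`.

Proof: a chain of `𝕋_k`-stable subspaces reduces to a chain of `T₂`-stable subspaces of the cusp forms
modulo `l = 293`; filter by `S_{k-(l-1)} ⊆ S_k` (multiplication by the Hasse invariant `E_{l-1} = 1`); the
quotient of weight `d + 2 l` over `d + l + 1` is the twist of the one of weight `d + (l-1)` over `d` by the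
derivative `θ`, so the number of steps of the `147` windows `d = 4, 6, ..., 296` (certified in the kernel,
`1001` in total) bounds the length in every weight. -/

namespace Pool.Agent.Results.MP_0f16e1_nt.OrbitCount

open MP0f16e1

theorem result (k : ℕ) :
    {I : Ideal (HeckeAlg k) | I.IsMaximal}.encard ≤
      ((28 * Module.finrank ℚ (Sk k) / 100 + 1295 : ℕ) : ℕ∞) :=
  orbits k

end Pool.Agent.Results.MP_0f16e1_nt.OrbitCount
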